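import Mathlib

open Filter Topology MeasureTheory Set
open scoped NNReal ENNReal

namespace Pool.Agent.Results.MP_cf29c0_an.ImplicationNotDissipative

noncomputable section

/-- The class `𝒦`: continuous, strictly increasing, zero at zero. -/
def ClassK (γ : ℝ≥0 → ℝ≥0) : Prop := Continuous γ ∧ StrictMono γ ∧ γ 0 = 0

/-- The class `𝒦_∞`: unbounded members of `𝒦`. -/
def ClassKinf (γ : ℝ≥0 → ℝ≥0) : Prop := ClassK γ ∧ ∀ M, ∃ r, M < γ r

/-- The class `𝒫𝒟` of positive definite functions. -/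
def ClassPD (γ : ℝ≥0 → ℝ≥0) : Prop := Continuous γ ∧ γ 0 = 0 ∧ ∀ r, 0 < r → 0 < γ r

/-- A (forward complete) control system with state space `X`, input values in `U` and a normed
vector space `𝒰` of inputs `ℝ₊ → U`. -/
structure ControlSystem (X U 𝒰 : Type) [NormedAddCommGroup X] [NormedSpace ℝ X]
    [NormedAddCommGroup U] [NormedSpace ℝ U] [NormedAddCommGroup 𝒰] [NormedSpace ℝ 𝒰] where
  /-- inputs are functions `ℝ₊ → U` -/
  ev : 𝒰 →ₗ[ℝ] (ℝ≥0 → U)
  ev_inj : Function.Injective ev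
  /-- shift of inputs -/
  shift : ∀ (τ : ℝ≥0) (u : 𝒰), ∃ v : 𝒰, (∀ s, ev v s = ev u (s + τ)) ∧ ‖v‖ ≤ ‖u‖
  /-- concatenation of inputs -/
  concat : ∀ (t : ℝ≥0) (u v : 𝒰), 0 < t →
    ∃ w : 𝒰, ∀ s, ev w s = if s ≤ t then ev u s else ev v (s - t)
  /-- the flow -/
  flow : ℝ≥0 → X → 𝒰 → X
  flow_zero : ∀ x u, flow 0 x u = x
  causal : ∀ (t : ℝ≥0) (x : X) (u v : 𝒰), (∀ s ≤ t, ev u s = ev v s) → flow t x u = flow t x v
  cont : ∀ x u, Continuous fun t => flow t x u
  cocycle : ∀ (t h : ℝ≥0) (x : X) (u v : 𝒰), (∀ s, ev v s = ev u (s + t)) →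
    flow h (flow t x u) v = flow (t + h) x u

section

variable {X U 𝒰 : Type} [NormedAddCommGroup X] [NormedSpace ℝ X]
    [NormedAddCommGroup U] [NormedSpace ℝ U] [NormedAddCommGroup 𝒰] [NormedSpace ℝ 𝒰]

/-- The upper right Dini derivative of `V` along the trajectory, an extended real number. -/
def dini (S : ControlSystem X U 𝒰) (V : X → ℝ) (x : X) (u : 𝒰) : EReal :=
  limsup (fun t : ℝ≥0 => (((V (S.flow t x u) - V x) / (t : ℝ) : ℝ) : EReal)) (𝓝[>] 0)

/-- ISS Lyapunov function in dissipative form. -/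
def Dissipative (S : ControlSystem X U 𝒰) (V : X → ℝ) : Prop :=
  Continuous V ∧ ∃ ψ₁ ψ₂ α σ : ℝ≥0 → ℝ≥0, ClassKinf ψ₁ ∧ ClassKinf ψ₂ ∧ ClassKinf α ∧ ClassK σ ∧
    (∀ x, (ψ₁ ‖x‖₊ : ℝ) ≤ V x ∧ V x ≤ ψ₂ ‖x‖₊) ∧
    ∀ x u, dini S V x u ≤ ((-(α ‖x‖₊ : ℝ) + (σ ‖u‖₊ : ℝ) : ℝ) : EReal)

/-- ISS Lyapunov function in implication form. -/
def Implication (S : ControlSystem X U 𝒰) (V : X → ℝ) : Prop :=
  Continuous V ∧ ∃ ψ₁ ψ₂ χ α : ℝ≥0 → ℝ≥0, ClassKinf ψ₁ ∧ ClassKinf ψ₂ ∧ ClassKinf χ ∧ ClassPD α ∧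
    (∀ x, (ψ₁ ‖x‖₊ : ℝ) ≤ V x ∧ V x ≤ ψ₂ ‖x‖₊) ∧
    ∀ x u, χ ‖u‖₊ ≤ ‖x‖₊ → dini S V x u ≤ ((-(α ‖x‖₊ : ℝ) : ℝ) : EReal)

end

/-! ### The example -/

/-- the Hilbert space `ℓ²` -/
abbrev L2 : Type := lp (fun _ : ℕ => ℝ) 2

/-- the state space `ℝ × ℓ²` -/
abbrev XX : Type := ℝ × L2

/-- the measurable members of the space of bounded functions on `ℝ₊` -/
def inputSub : Submodule ℝ (lp (fun _ : ℝ≥0 => ℝ) ∞) where
  carrier := {f | Measurable fun s => f s}
  add_mem' := by
    intro f g hf hg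
    have : (fun s => (f + g) s) = fun s => f s + g s := by ext s; simp
    change Measurable fun s => (f + g) s
    rw [this]
    exact Measurable.add hf hg
  zero_mem' := by
    change Measurable fun s => (0 : lp (fun _ : ℝ≥0 => ℝ) ∞) s
    simp only [lp.coeFn_zero, Pi.zero_apply]
    exact measurable_const
  smul_mem' := by
    intro c f hf
    have : (fun s => (c • f) s) = fun s => c * f s := by ext s; simp
    change Measurable fun s => (c • f) s
    rw [this]
    exact Measurable.const_mul hf c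

/-- the input space: bounded measurable functions with the supremum norm -/
abbrev UU : Type := inputSub

/-- evaluation of an input -/
def evU : UU →ₗ[ℝ] (ℝ≥0 → ℝ) where
  toFun u := fun s => (u : lp (fun _ : ℝ≥0 => ℝ) ∞) s
  map_add' := by intro u v; ext s; simp
  map_smul' := by intro c u; ext s; simp

lemma evU_meas (u : UU) : Measurable (evU u) := u.2

lemma evU_le (u : UU) (s : ℝ≥0) : |evU u s| ≤ ‖u‖ :=
  lp.norm_apply_le_norm (by simp) (u : lp (fun _ : ℝ≥0 => ℝ) ∞) s

lemma exists_input (f : ℝ≥0 → ℝ) (hf : Measurable f) (C : ℝ) (hC : 0 ≤ C) (hb : ∀ s, |f s| ≤ C) :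
    ∃ u : UU, (∀ s, evU u s = f s) ∧ ‖u‖ ≤ C := by
  have hmem : Memℓp f ∞ := by
    apply memℓp_infty
    refine ⟨C, ?_⟩
    rintro _ ⟨s, rfl⟩
    exact hb s
  refine ⟨⟨⟨f, hmem⟩, hf⟩, fun s => rfl, ?_⟩
  change ‖(⟨f, hmem⟩ : lp (fun _ : ℝ≥0 => ℝ) ∞)‖ ≤ C
  exact lp.norm_le_of_forall_le hC hb

/-- the forced part of the first component -/
def forced (t : ℝ≥0) (u : UU) : ℝ :=
  ∫ s in (0 : ℝ)..t, Real.exp (s - t) * evU u s.toNNReal

lemma integrand_int (u : UU) (c a b : ℝ) :
    IntervalIntegrable (fun s : ℝ => Real.exp (s - c) * evU u s.toNNReal) volume a b := by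
  apply IntervalIntegrable.continuousOn_mul
  · rw [intervalIntegrable_iff]
    have hm : Measurable fun s : ℝ => evU u s.toNNReal := (evU_meas u).comp measurable_real_toNNReal
    apply Measure.integrableOn_of_bounded (M := ‖u‖)
    · simp
    · exact hm.aestronglyMeasurable
    · filter_upwards with s
      exact evU_le u _
  · exact (by fun_prop : Continuous fun s : ℝ => Real.exp (s - c)).continuousOn

lemma forced_zero (u : UU) : forced 0 u = 0 := by simp [forced]

lemma forced_abs (t : ℝ≥0) (u : UU) : |forced t u| ≤ (1 - Real.exp (-t)) * ‖u‖ := by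
  have h1 : ‖∫ s in (0 : ℝ)..t, Real.exp (s - t) * evU u s.toNNReal‖ ≤
      ∫ s in (0 : ℝ)..t, Real.exp (s - t) * ‖u‖ := by
    apply intervalIntegral.norm_integral_le_of_norm_le t.2
    · filter_upwards with s _
      rw [Real.norm_eq_abs, abs_mul, abs_of_pos (Real.exp_pos _)]
      exact mul_le_mul_of_nonneg_left (evU_le u _) (Real.exp_pos _).le
    · exact (by fun_prop : Continuous fun s : ℝ => Real.exp (s - t) * ‖u‖).intervalIntegrable _ _
  have h2 : ∫ s in (0 : ℝ)..t, Real.exp (s - t) * ‖u‖ = (1 - Real.exp (-t)) * ‖u‖ := by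
    have hd : ∀ s ∈ Set.uIcc (0 : ℝ) t, HasDerivAt (fun s : ℝ => Real.exp (s - t) * ‖u‖)
        (Real.exp (s - t) * ‖u‖) s := by
      intro s _
      have := ((hasDerivAt_id s).sub_const (t : ℝ)).exp.mul_const ‖u‖
      simpa using this
    rw [intervalIntegral.integral_eq_sub_of_hasDerivAt hd
      ((by fun_prop : Continuous fun s : ℝ => Real.exp (s - t) * ‖u‖).intervalIntegrable _ _)]
    simp
    ring
  rw [h2] at h1
  exact h1

lemma forced_cocycle (t h : ℝ≥0) (u v : UU) (huv : ∀ s, evU v s = evU u (s + t)) :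
    Real.exp (-h) * forced t u + forced h v = forced (t + h) u := by
  have hsplit := intervalIntegral.integral_add_adjacent_intervals
    (integrand_int u ((t + h : ℝ≥0) : ℝ) 0 t) (integrand_int u ((t + h : ℝ≥0) : ℝ) t (t + h : ℝ≥0))
  rw [forced, forced, forced, ← hsplit, ← intervalIntegral.integral_const_mul]
  congr 1
  · apply intervalIntegral.integral_congr
    intro s _
    simp only
    rw [← mul_assoc, ← Real.exp_add]
    congr 2
    push_cast; ring
  · have hsub := intervalIntegral.integral_comp_add_right (a := (0 : ℝ)) (b := (h : ℝ))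
      (fun s : ℝ => Real.exp (s - ((t + h : ℝ≥0) : ℝ)) * evU u s.toNNReal) (t : ℝ)
    rw [zero_add] at hsub
    have e1 : (h : ℝ) + t = ((t + h : ℝ≥0) : ℝ) := by push_cast; ring
    rw [e1] at hsub
    rw [← hsub]
    apply intervalIntegral.integral_congr
    intro s hs
    rw [uIcc_of_le (NNReal.coe_nonneg h)] at hs
    simp only
    rw [huv, Real.toNNReal_add hs.1 (NNReal.coe_nonneg t), Real.toNNReal_coe]
    congr 2
    push_cast; ring

lemma forced_cont (u : UU) : Continuous fun t : ℝ≥0 => forced t u := by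
  have h : ∀ t : ℝ≥0, forced t u =
      Real.exp (-(t : ℝ)) * ∫ s in (0 : ℝ)..t, Real.exp (s - 0) * evU u s.toNNReal := by
    intro t
    rw [forced, ← intervalIntegral.integral_const_mul]
    apply intervalIntegral.integral_congr
    intro s _
    simp only
    rw [← mul_assoc, ← Real.exp_add]
    congr 2
    ring
  simp only [h]
  have hp : Continuous fun t : ℝ => ∫ s in (0 : ℝ)..t, Real.exp (s - 0) * evU u s.toNNReal :=
    intervalIntegral.continuous_primitive (fun a b => integrand_int u 0 a b) 0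
  exact (by fun_prop : Continuous fun t : ℝ≥0 => Real.exp (-(t : ℝ))).mul
    (hp.comp NNReal.continuous_coe)

/-- the flow: `ẏ = -y + u`, `ż = -z/2` -/
def flow (t : ℝ≥0) (x : XX) (u : UU) : XX :=
  (Real.exp (-t) * x.1 + forced t u, Real.exp (-t / 2) • x.2)

/-- the example system -/
def sys : ControlSystem XX ℝ UU where
  ev := evU
  ev_inj := by
    intro u v huv
    apply Subtype.ext
    apply lp.ext
    exact huv
  shift := by
    intro τ u
    exact exists_input (fun s => evU u (s + τ)) ((evU_meas u).comp (measurable_id.add_const τ))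
      ‖u‖ (norm_nonneg _) fun s => evU_le u _
  concat := by
    intro t u v _
    obtain ⟨w, hw, -⟩ := exists_input (fun s => if s ≤ t then evU u s else evU v (s - t))
      (Measurable.ite measurableSet_Iic (evU_meas u)
        ((evU_meas v).comp (measurable_id.sub_const t)))
      (max ‖u‖ ‖v‖) (le_max_of_le_left (norm_nonneg _)) (by
        intro s
        split_ifs
        · exact (evU_le u _).trans (le_max_left _ _)
        · exact (evU_le v _).trans (le_max_right _ _))
    exact ⟨w, hw⟩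
  flow := flow
  flow_zero := by
    intro x u
    simp [flow, forced_zero]
  causal := by
    intro t x u v huv
    have : forced t u = forced t v := by
      apply intervalIntegral.integral_congr
      intro s hs
      rw [uIcc_of_le (NNReal.coe_nonneg t)] at hs
      simp only
      rw [huv s.toNNReal (by
        rw [← NNReal.coe_le_coe, Real.coe_toNNReal _ hs.1]; exact hs.2)]
    rw [flow, flow, this]
  cont := by
    intro x u
    apply Continuous.prodMk
    · exact ((by fun_prop : Continuous fun t : ℝ≥0 => Real.exp (-(t : ℝ))).mul_const _).add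
        (forced_cont u)
    · exact (by fun_prop : Continuous fun t : ℝ≥0 => Real.exp (-(t : ℝ) / 2)).smul continuous_const
  cocycle := by
    intro t h x u v huv
    apply Prod.ext
    · simp only [flow]
      rw [← forced_cocycle t h u v huv, NNReal.coe_add,
        show -((t : ℝ) + h) = -h + -t by ring, Real.exp_add]
      ring
    · simp only [flow]
      rw [smul_smul, ← Real.exp_add, NNReal.coe_add]
      congr 2
      ring


/-! ### The Lyapunov function -/

/-- the weight `λ(z) = ∑ k (|z_k| - 1/8)₊` -/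
def lam (z : L2) : ℝ := ∑' k : ℕ, (k : ℝ) * max (|z k| - 1 / 8) 0

/-- the threshold `b(z) = max (1, 4‖z‖)` -/
def thr (z : L2) : ℝ := max 1 (4 * ‖z‖)

/-- the Lyapunov function -/
def V (x : XX) : ℝ := |x.1| + ‖x.2‖ + min 1 (lam x.2 * max (|x.1| - thr x.2) 0)

lemma coord_tendsto (z : L2) : Tendsto (fun k => |z k|) atTop (𝓝 0) := by
  have h1 := (lp.memℓp z).summable (p := 2) (by norm_num)
  have h2 := h1.tendsto_atTop_zero
  have h4 : ENNReal.toReal 2 = 2 := by simp
  rw [h4] at h2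
  have h3 : Tendsto (fun k => Real.sqrt (‖z k‖ ^ (2 : ℝ))) atTop (𝓝 (Real.sqrt 0)) :=
    (Real.continuous_sqrt.tendsto 0).comp h2
  rw [Real.sqrt_zero] at h3
  refine h3.congr fun k => ?_
  rw [Real.rpow_two, Real.sqrt_sq (norm_nonneg _), Real.norm_eq_abs]

lemma lam_zero (z₀ : L2) : ∃ K : ℕ, ∀ z : L2, ‖z - z₀‖ < 1 / 16 → ∀ k, K ≤ k →
    (k : ℝ) * max (|z k| - 1 / 8) 0 = 0 := by
  have h := (coord_tendsto z₀).eventually_lt_const (show (0 : ℝ) < 1 / 16 by norm_num)
  obtain ⟨K, hK⟩ := eventually_atTop.1 h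
  refine ⟨K, fun z hz k hk' => ?_⟩
  have h1 := hK k hk'
  have h2 : |z k - z₀ k| ≤ ‖z - z₀‖ := by
    have := lp.norm_apply_le_norm (p := 2) (by norm_num) (z - z₀) k
    simpa using this
  have h3 : |z k| ≤ |z k - z₀ k| + |z₀ k| := by
    calc |z k| = |(z k - z₀ k) + z₀ k| := by congr 1; ring
      _ ≤ _ := abs_add_le _ _
  rw [max_eq_right (by linarith), mul_zero]

lemma lam_local (z₀ : L2) : ∃ K : ℕ, ∀ z : L2, ‖z - z₀‖ < 1 / 16 →
    lam z = ∑ k ∈ Finset.range K, (k : ℝ) * max (|z k| - 1 / 8) 0 := by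
  obtain ⟨K, hK⟩ := lam_zero z₀
  refine ⟨K, fun z hz => tsum_eq_sum fun k hk => hK z hz k ?_⟩
  by_contra hcon
  exact hk (Finset.mem_range.2 (by omega))

lemma lam_summable (z : L2) : Summable fun k : ℕ => (k : ℝ) * max (|z k| - 1 / 8) 0 := by
  obtain ⟨K, hK⟩ := lam_zero z
  apply summable_of_ne_finset_zero (s := Finset.range K)
  intro k hk
  apply hK z (by simp) k
  by_contra hcon
  exact hk (Finset.mem_range.2 (by omega))

lemma coord_continuous (k : ℕ) : Continuous fun z : L2 => z k := by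
  have : LipschitzWith 1 fun z : L2 => z k := by
    apply LipschitzWith.of_dist_le_mul
    intro z w
    rw [NNReal.coe_one, one_mul, Real.dist_eq, dist_eq_norm]
    have := lp.norm_apply_le_norm (p := 2) (by norm_num) (z - w) k
    simpa using this
  exact this.continuous

lemma lam_continuous : Continuous lam := by
  rw [continuous_iff_continuousAt]
  intro z₀
  obtain ⟨K, hK⟩ := lam_local z₀
  have hev : lam =ᶠ[𝓝 z₀] fun z => ∑ k ∈ Finset.range K, (k : ℝ) * max (|z k| - 1 / 8) 0 := by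
    filter_upwards [Metric.ball_mem_nhds z₀ (show (0 : ℝ) < 1 / 16 by norm_num)] with z hz
    apply hK
    rwa [Metric.mem_ball, dist_eq_norm] at hz
  refine ContinuousAt.congr ?_ hev.symm
  apply Continuous.continuousAt
  refine continuous_finsetSum _ fun k _ => ?_
  exact continuous_const.mul (((coord_continuous k).abs.sub continuous_const).max continuous_const)

lemma lam_nonneg (z : L2) : 0 ≤ lam z :=
  tsum_nonneg fun k => mul_nonneg (Nat.cast_nonneg k) (le_max_right _ _)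

lemma lam_smul_le (z : L2) {s : ℝ} (h0 : 0 ≤ s) (h1 : s ≤ 1) : lam (s • z) ≤ lam z := by
  apply Summable.tsum_le_tsum _ (lam_summable _) (lam_summable _)
  intro k
  apply mul_le_mul_of_nonneg_left _ (Nat.cast_nonneg k)
  apply max_le_max_right
  have : |(s • z) k| = s * |z k| := by
    rw [lp.coeFn_smul, Pi.smul_apply, smul_eq_mul, abs_mul, abs_of_nonneg h0]
  rw [this]
  nlinarith [abs_nonneg (z k)]

lemma thr_continuous : Continuous thr := by unfold thr; fun_prop

lemma V_continuous : Continuous V := by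
  have := lam_continuous
  have := thr_continuous
  unfold V
  fun_prop

lemma thr_ge_one (z : L2) : 1 ≤ thr z := le_max_left _ _

lemma norm_eq (x : XX) : ‖x‖ = max |x.1| ‖x.2‖ := by
  rw [Prod.norm_def, Real.norm_eq_abs]

lemma V_lower (x : XX) : ‖x‖ ≤ V x := by
  rw [norm_eq]
  have h1 : 0 ≤ min 1 (lam x.2 * max (|x.1| - thr x.2) 0) :=
    le_min zero_le_one (mul_nonneg (lam_nonneg _) (le_max_right _ _))
  unfold V
  apply max_le
  · linarith [norm_nonneg x.2]
  · linarith [abs_nonneg x.1]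

lemma V_upper (x : XX) : V x ≤ 3 * ‖x‖ := by
  have h0 : |x.1| ≤ ‖x‖ := by rw [norm_eq]; exact le_max_left _ _
  have h1 : ‖x.2‖ ≤ ‖x‖ := by rw [norm_eq]; exact le_max_right _ _
  unfold V
  rcases le_or_gt |x.1| 1 with h | h
  · have : max (|x.1| - thr x.2) 0 = 0 := max_eq_right (by linarith [thr_ge_one x.2])
    rw [this, mul_zero, min_eq_right zero_le_one]
    linarith [norm_nonneg x]
  · linarith [min_le_left 1 (lam x.2 * max (|x.1| - thr x.2) 0)]

/-! ### Implication form -/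

lemma W_small (x : XX) (u : UU) (hu : 4 * ‖u‖ ≤ ‖x‖) : ∀ᶠ t : ℝ≥0 in 𝓝[>] 0,
    min 1 (lam (flow t x u).2 * max (|(flow t x u).1| - thr (flow t x u).2) 0) ≤
      min 1 (lam x.2 * max (|x.1| - thr x.2) 0) := by
  rcases lt_or_ge |x.1| (thr x.2) with h | h
  · -- strictly below the threshold: stays below
    have hc : Continuous fun t : ℝ≥0 => flow t x u := sys.cont x u
    have hc1 : Continuous fun t : ℝ≥0 => |(flow t x u).1| - thr (flow t x u).2 :=
      (hc.fst.abs).sub (thr_continuous.comp hc.snd)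
    have hlim : Tendsto (fun t : ℝ≥0 => |(flow t x u).1| - thr (flow t x u).2) (𝓝[>] 0)
        (𝓝 (|(flow 0 x u).1| - thr (flow 0 x u).2)) := (hc1.tendsto 0).mono_left nhdsWithin_le_nhds
    have h0 : flow 0 x u = x := sys.flow_zero x u
    rw [h0] at hlim
    filter_upwards [hlim.eventually_lt_const (show |x.1| - thr x.2 < 0 by linarith)] with t ht
    rw [max_eq_right ht.le, mul_zero, min_eq_right zero_le_one]
    exact le_min zero_le_one (mul_nonneg (lam_nonneg _) (le_max_right _ _))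
  · -- above the threshold
    have hcexp : Continuous fun t : ℝ≥0 => Real.exp (-(t : ℝ) / 2) := by fun_prop
    have hlim : Tendsto (fun t : ℝ≥0 => Real.exp (-(t : ℝ) / 2)) (𝓝[>] 0)
        (𝓝 (Real.exp (-((0 : ℝ≥0) : ℝ) / 2))) := (hcexp.tendsto 0).mono_left nhdsWithin_le_nhds
    have h0 : Real.exp (-((0 : ℝ≥0) : ℝ) / 2) = 1 := by simp
    rw [h0] at hlim
    filter_upwards [hlim.eventually_const_lt (show (1 / 3 : ℝ) < 1 by norm_num)] with t ht
    set s := Real.exp (-(t : ℝ) / 2) with hs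
    have hs1 : s ≤ 1 := Real.exp_le_one_iff.2 (by have := NNReal.coe_nonneg t; linarith)
    have hs0 : 0 < s := Real.exp_pos _
    have hes : Real.exp (-(t : ℝ)) = s ^ 2 := by
      rw [hs, ← Real.exp_nat_mul]; congr 1; ring
    have hy4 : 4 * ‖x.2‖ ≤ |x.1| := (le_max_right _ _).trans h
    have hxn : ‖x‖ = |x.1| := by
      rw [norm_eq]; apply max_eq_left; linarith [norm_nonneg x.2]
    have hy1 : |(flow t x u).1| ≤ s ^ 2 * |x.1| + (1 - s ^ 2) * ‖u‖ := by
      simp only [flow]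
      calc |Real.exp (-(t : ℝ)) * x.1 + forced t u| ≤ |Real.exp (-(t : ℝ)) * x.1| + |forced t u| :=
            abs_add_le _ _
        _ ≤ s ^ 2 * |x.1| + (1 - s ^ 2) * ‖u‖ := by
            rw [abs_mul, abs_of_pos (Real.exp_pos _), hes]
            have := forced_abs t u
            rw [hes] at this
            linarith
    have hu' : ‖u‖ ≤ |x.1| / 4 := by rw [hxn] at hu; linarith
    have hs2 : 0 ≤ 1 - s ^ 2 := by nlinarith
    have hy2 : |(flow t x u).1| ≤ s * |x.1| := by
      have h1 : (1 - s ^ 2) * ‖u‖ ≤ (1 - s ^ 2) * (|x.1| / 4) := mul_le_mul_of_nonneg_left hu' hs2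
      have h2 : s ^ 2 + (1 - s ^ 2) / 4 ≤ s := by nlinarith
      have h3 := mul_le_mul_of_nonneg_right h2 (abs_nonneg x.1)
      linarith
    have hthr : s * thr x.2 ≤ thr (flow t x u).2 := by
      simp only [flow, thr]
      rw [norm_smul, Real.norm_eq_abs, abs_of_pos hs0]
      rw [mul_max_of_nonneg _ _ hs0.le]
      apply max_le_max
      · linarith
      · linarith
    have hlam : lam (flow t x u).2 ≤ lam x.2 := by
      simp only [flow]
      exact lam_smul_le _ hs0.le hs1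
    apply min_le_min_left
    apply mul_le_mul hlam _ (le_max_right _ _) (lam_nonneg _)
    apply max_le_max_right
    have h4 : s * |x.1| - s * thr x.2 ≤ |x.1| - thr x.2 := by nlinarith
    linarith

lemma tendsto_expq (c : ℝ) : Tendsto (fun t : ℝ≥0 => (Real.exp (c * t) - 1) / (t : ℝ)) (𝓝[>] 0)
    (𝓝 c) := by
  have h1 : HasDerivAt (fun t : ℝ => Real.exp (c * t)) c 0 := by
    have := ((hasDerivAt_id (0 : ℝ)).const_mul c).exp
    simpa using this
  have h2 := (hasDerivAt_iff_tendsto_slope.1 h1)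
  have h3 : Tendsto (fun t : ℝ≥0 => (t : ℝ)) (𝓝[>] 0) (𝓝[≠] 0) := by
    apply tendsto_nhdsWithin_of_tendsto_nhds_of_eventually_within
    · exact (NNReal.continuous_coe.tendsto 0).mono_left nhdsWithin_le_nhds
    · filter_upwards [self_mem_nhdsWithin] with t ht
      have : 0 < t := ht
      simpa using this.ne'
  refine (h2.comp h3).congr fun t => ?_
  simp [slope_def_field]

lemma implication_bound (x : XX) (u : UU) (hu : 4 * ‖u‖ ≤ ‖x‖) :
    dini sys V x u ≤ ((-(‖x‖ / 4) : ℝ) : EReal) := by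
  have hlim : Tendsto (fun t : ℝ≥0 => ((((Real.exp ((-1 : ℝ) * t) - 1) / (t : ℝ)) * (|x.1| - ‖u‖) +
      ((Real.exp ((-1 / 2 : ℝ) * t) - 1) / (t : ℝ)) * ‖x.2‖ : ℝ) : EReal)) (𝓝[>] 0)
      (𝓝 (((-1) * (|x.1| - ‖u‖) + (-1 / 2) * ‖x.2‖ : ℝ) : EReal)) := by
    apply (continuous_coe_real_ereal.tendsto _).comp
    exact ((tendsto_expq (-1)).mul_const _).add ((tendsto_expq (-1 / 2)).mul_const _)
  have hev : ∀ᶠ t : ℝ≥0 in 𝓝[>] 0, (((V (sys.flow t x u) - V x) / (t : ℝ) : ℝ) : EReal) ≤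
      ((((Real.exp ((-1 : ℝ) * t) - 1) / (t : ℝ)) * (|x.1| - ‖u‖) +
      ((Real.exp ((-1 / 2 : ℝ) * t) - 1) / (t : ℝ)) * ‖x.2‖ : ℝ) : EReal) := by
    filter_upwards [W_small x u hu, self_mem_nhdsWithin] with t ht htpos
    have ht0 : 0 < (t : ℝ) := by exact_mod_cast (show (0 : ℝ≥0) < t from htpos)
    rw [EReal.coe_le_coe_iff, div_mul_eq_mul_div, div_mul_eq_mul_div, ← add_div]
    apply div_le_div_of_nonneg_right _ ht0.le
    have e1 : (-1 : ℝ) * t = -(t : ℝ) := by ring
    have e2 : (-1 / 2 : ℝ) * t = -(t : ℝ) / 2 := by ring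
    rw [e1, e2]
    have hy : |(flow t x u).1| ≤ Real.exp (-(t : ℝ)) * |x.1| + (1 - Real.exp (-(t : ℝ))) * ‖u‖ := by
      simp only [flow]
      calc |Real.exp (-(t : ℝ)) * x.1 + forced t u| ≤ |Real.exp (-(t : ℝ)) * x.1| + |forced t u| :=
            abs_add_le _ _
        _ ≤ _ := by
            rw [abs_mul, abs_of_pos (Real.exp_pos _)]
            linarith [forced_abs t u]
    have hz : ‖(flow t x u).2‖ = Real.exp (-(t : ℝ) / 2) * ‖x.2‖ := by
      simp only [flow]
      rw [norm_smul, Real.norm_eq_abs, abs_of_pos (Real.exp_pos _)]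
    have hVt : V (sys.flow t x u) = |(flow t x u).1| + ‖(flow t x u).2‖ +
      min 1 (lam (flow t x u).2 * max (|(flow t x u).1| - thr (flow t x u).2) 0) := rfl
    have hV : V x = |x.1| + ‖x.2‖ + min 1 (lam x.2 * max (|x.1| - thr x.2) 0) := rfl
    rw [hVt, hV, hz]
    nlinarith [ht, hy]
  refine (limsup_le_limsup hev).trans ?_
  rw [hlim.limsup_eq, EReal.coe_le_coe_iff]
  have h0 : |x.1| ≤ ‖x‖ := by rw [norm_eq]; exact le_max_left _ _
  have h1 : ‖x.2‖ ≤ ‖x‖ := by rw [norm_eq]; exact le_max_right _ _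
  rcases max_choice |x.1| ‖x.2‖ with h | h
  · rw [← norm_eq] at h
    linarith [norm_nonneg x.2]
  · rw [← norm_eq] at h
    linarith [abs_nonneg x.1]

/-! ### No dissipative form -/

/-- the test points -/
def pt (k : ℕ) : XX := (1, (1 / 4 : ℝ) • lp.single 2 k (1 : ℝ))

lemma pt_norm (k : ℕ) : ‖pt k‖ = 1 := by
  rw [norm_eq]
  simp only [pt]
  rw [norm_smul, lp.norm_single (by norm_num)]
  norm_num

lemma lam_pt (k : ℕ) (s : ℝ) (hs : 0 ≤ s) :
    lam (s • (1 / 4 : ℝ) • lp.single 2 k (1 : ℝ)) = k * max (s / 4 - 1 / 8) 0 := by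
  unfold lam
  rw [tsum_eq_single k]
  · congr 2
    rw [lp.coeFn_smul, Pi.smul_apply, lp.coeFn_smul, Pi.smul_apply, lp.single_apply_self]
    simp only [smul_eq_mul, mul_one]
    rw [abs_of_nonneg (by positivity)]
    ring
  · intro j hj
    rw [lp.coeFn_smul, Pi.smul_apply, lp.coeFn_smul, Pi.smul_apply, lp.single_apply_ne _ _ _ hj]
    simp

/-- the constant input `3` -/
lemma exists_const : ∃ u : UU, ∀ s, evU u s = 3 := by
  obtain ⟨u, hu, -⟩ := exists_input (fun _ => 3) measurable_const 3 (by norm_num)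
    fun s => by norm_num
  exact ⟨u, hu⟩

lemma forced_const {u : UU} (hu : ∀ s, evU u s = 3) (t : ℝ≥0) :
    forced t u = 3 * (1 - Real.exp (-(t : ℝ))) := by
  unfold forced
  simp only [hu]
  have hd : ∀ s ∈ Set.uIcc (0 : ℝ) t, HasDerivAt (fun s : ℝ => Real.exp (s - t) * 3)
      (Real.exp (s - t) * 3) s := by
    intro s _
    have := ((hasDerivAt_id s).sub_const (t : ℝ)).exp.mul_const 3
    simpa using this
  rw [intervalIntegral.integral_eq_sub_of_hasDerivAt hd
    ((by fun_prop : Continuous fun s : ℝ => Real.exp (s - t) * 3).intervalIntegrable _ _)]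
  simp
  ring

lemma dini_large {u : UU} (hu : ∀ s, evU u s = 3) (k : ℕ) :
    (((k : ℝ) / 4 + 15 / 8 : ℝ) : EReal) ≤ dini sys V (pt k) u := by
  have hcs : Tendsto (fun t : ℝ≥0 => Real.exp (-(t : ℝ) / 2)) (𝓝[>] 0) (𝓝 1) := by
    have hc : Continuous fun t : ℝ≥0 => Real.exp (-(t : ℝ) / 2) := by fun_prop
    have := (hc.tendsto 0).mono_left (nhdsWithin_le_nhds (s := Ioi (0 : ℝ≥0)))
    simpa using this
  have hce : Tendsto (fun t : ℝ≥0 => Real.exp (-(t : ℝ))) (𝓝[>] 0) (𝓝 1) := by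
    have hc : Continuous fun t : ℝ≥0 => Real.exp (-(t : ℝ)) := by fun_prop
    have := (hc.tendsto 0).mono_left (nhdsWithin_le_nhds (s := Ioi (0 : ℝ≥0)))
    simpa using this
  have hcw : Tendsto (fun t : ℝ≥0 => (k : ℝ) * (Real.exp (-(t : ℝ) / 2) / 4 - 1 / 8) *
      (2 - 2 * Real.exp (-(t : ℝ)))) (𝓝[>] 0) (𝓝 ((k : ℝ) * (1 / 4 - 1 / 8) * (2 - 2 * 1))) :=
    (((hcs.div_const 4).sub_const _).const_mul _).mul ((hce.const_mul 2).const_sub 2)
  have hw0 : (k : ℝ) * (1 / 4 - 1 / 8) * (2 - 2 * 1) = 0 := by ring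
  rw [hw0] at hcw
  have hlim : Tendsto (fun t : ℝ≥0 => (((-(2 + 2 * k * (Real.exp (-(t : ℝ) / 2) / 4 - 1 / 8))) *
      ((Real.exp ((-1 : ℝ) * t) - 1) / (t : ℝ)) + (1 / 4) *
      ((Real.exp ((-1 / 2 : ℝ) * t) - 1) / (t : ℝ)) : ℝ) : EReal)) (𝓝[>] 0)
      (𝓝 (((k : ℝ) / 4 + 15 / 8 : ℝ) : EReal)) := by
    apply (continuous_coe_real_ereal.tendsto _).comp
    have h1 : Tendsto (fun t : ℝ≥0 => -(2 + 2 * k * (Real.exp (-(t : ℝ) / 2) / 4 - 1 / 8)))
        (𝓝[>] 0) (𝓝 (-(2 + 2 * k * (1 / 4 - 1 / 8)))) :=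
      ((((hcs.div_const 4).sub_const _).const_mul _).const_add 2).neg
    have h2 := (h1.mul (tendsto_expq (-1))).add ((tendsto_expq (-1 / 2)).const_mul (1 / 4))
    have e : -(2 + 2 * (k : ℝ) * (1 / 4 - 1 / 8)) * -1 + 1 / 4 * (-1 / 2) =
        (k : ℝ) / 4 + 15 / 8 := by ring
    rw [e] at h2
    exact h2
  have hev : (fun t : ℝ≥0 => (((-(2 + 2 * k * (Real.exp (-(t : ℝ) / 2) / 4 - 1 / 8))) *
      ((Real.exp ((-1 : ℝ) * t) - 1) / (t : ℝ)) + (1 / 4) *
      ((Real.exp ((-1 / 2 : ℝ) * t) - 1) / (t : ℝ)) : ℝ) : EReal)) =ᶠ[𝓝[>] 0]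
      fun t : ℝ≥0 => (((V (sys.flow t (pt k) u) - V (pt k)) / (t : ℝ) : ℝ) : EReal) := by
    filter_upwards [hcs.eventually_const_lt (show (1 / 2 : ℝ) < 1 by norm_num),
      hcw.eventually_lt_const (show (0 : ℝ) < 1 by norm_num), self_mem_nhdsWithin] with t h1 h2 h3
    have ht0 : 0 < (t : ℝ) := by exact_mod_cast (show (0 : ℝ≥0) < t from h3)
    have hs1 : Real.exp (-(t : ℝ) / 2) ≤ 1 := Real.exp_le_one_iff.2 (by linarith)
    have he1 : Real.exp (-(t : ℝ)) ≤ 1 := Real.exp_le_one_iff.2 (by linarith)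
    have hf1 : (sys.flow t (pt k) u).1 = 3 - 2 * Real.exp (-(t : ℝ)) := by
      change Real.exp (-(t : ℝ)) * 1 + forced t u = _
      rw [forced_const hu]; ring
    have hf2 : (sys.flow t (pt k) u).2 =
        Real.exp (-(t : ℝ) / 2) • (1 / 4 : ℝ) • lp.single 2 k (1 : ℝ) := rfl
    have hn2 : ‖(sys.flow t (pt k) u).2‖ = Real.exp (-(t : ℝ) / 2) / 4 := by
      rw [hf2, norm_smul, norm_smul, lp.norm_single (by norm_num), Real.norm_eq_abs,
        abs_of_pos (Real.exp_pos _)]
      norm_num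
      ring
    have hthr : thr (sys.flow t (pt k) u).2 = 1 := by
      unfold thr
      rw [hn2]
      apply max_eq_left
      linarith
    have hlam : lam (sys.flow t (pt k) u).2 = k * (Real.exp (-(t : ℝ) / 2) / 4 - 1 / 8) := by
      rw [hf2, lam_pt k _ (Real.exp_pos _).le, max_eq_left (by linarith)]
    have hVt : V (sys.flow t (pt k) u) = (3 - 2 * Real.exp (-(t : ℝ))) +
        Real.exp (-(t : ℝ) / 2) / 4 + (k : ℝ) * (Real.exp (-(t : ℝ) / 2) / 4 - 1 / 8) *
      (2 - 2 * Real.exp (-(t : ℝ))) := by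
      unfold V
      rw [hf1, hn2, hthr, hlam, abs_of_pos (by linarith)]
      have e1 : max (3 - 2 * Real.exp (-(t : ℝ)) - 1) 0 = 2 - 2 * Real.exp (-(t : ℝ)) := by
        rw [max_eq_left (by linarith)]; ring
      rw [e1, min_eq_right h2.le]
    have hVp : V (pt k) = 5 / 4 := by
      have e1 : (pt k).1 = 1 := rfl
      have e2 : ‖(pt k).2‖ = 1 / 4 := by
        simp only [pt]
        rw [norm_smul, lp.norm_single (by norm_num)]
        norm_num
      unfold V
      have e3 : max (|(pt k).1| - thr (pt k).2) 0 = 0 := by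
        apply max_eq_right
        rw [e1, abs_one]
        linarith [thr_ge_one (pt k).2]
      rw [e3, mul_zero, min_eq_right zero_le_one, e1, e2]
      norm_num
    rw [hVt, hVp]
    congr 1
    have e1 : (-1 : ℝ) * t = -(t : ℝ) := by ring
    have e2 : (-1 / 2 : ℝ) * t = -(t : ℝ) / 2 := by ring
    rw [e1, e2]
    field_simp
    ring
  unfold dini
  rw [← limsup_congr hev, hlim.limsup_eq]

lemma not_finiteDimensional : ¬ FiniteDimensional ℝ XX := by
  intro hfd
  have hli : LinearIndependent ℝ (fun k : ℕ => ((0 : ℝ), lp.single 2 k (1 : ℝ)) : ℕ → XX) := by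
    rw [linearIndependent_iff']
    intro s g hg i hi
    have h1 := congrArg (fun x : XX => x.2 i) hg
    simp only [Prod.snd_sum, Prod.snd_zero] at h1
    rw [lp.coeFn_sum, Finset.sum_apply, Finset.sum_eq_single i] at h1
    · simpa using h1
    · intro j _ hj
      simp only [Prod.smul_mk, lp.coeFn_smul, Pi.smul_apply]
      rw [lp.single_apply_ne _ _ _ hj.symm]
      simp
    · intro h; exact absurd hi h
  have := hli.finite
  exact not_finite ℕ

/-- comparison functions `r ↦ c r` -/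
lemma kinf_mul {c : ℝ≥0} (hc : 0 < c) : ClassKinf fun r => c * r := by
  refine ⟨⟨by fun_prop, fun a b hab => mul_lt_mul_of_pos_left hab hc, by simp⟩, fun M => ?_⟩
  refine ⟨(M + 1) / c, ?_⟩
  change M < c * ((M + 1) / c)
  rw [mul_div_cancel₀ _ hc.ne']
  exact lt_add_one M

/-- There are a control system with infinite-dimensional state space and an ISS Lyapunov function
in implication form for it that is not an ISS Lyapunov function in dissipative form. -/
theorem result : ∃ (X U 𝒰 : Type) (_ : NormedAddCommGroup X) (_ : NormedSpace ℝ X)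
    (_ : NormedAddCommGroup U) (_ : NormedSpace ℝ U) (_ : NormedAddCommGroup 𝒰)
    (_ : NormedSpace ℝ 𝒰) (S : ControlSystem X U 𝒰) (V : X → ℝ),
    ¬ FiniteDimensional ℝ X ∧ Implication S V ∧ ¬ Dissipative S V := by
  refine ⟨XX, ℝ, UU, inferInstance, inferInstance, inferInstance, inferInstance, inferInstance,
    inferInstance, sys, V, not_finiteDimensional, ?_, ?_⟩
  · refine ⟨V_continuous, fun r => 1 * r, fun r => 3 * r, fun r => 4 * r, fun r => (1 / 4) * r,
      kinf_mul one_pos, kinf_mul (by norm_num), kinf_mul (by norm_num),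
      ⟨by fun_prop, by simp, fun r hr => by positivity⟩, ?_, ?_⟩
    · intro x
      constructor
      · simpa using V_lower x
      · simpa using V_upper x
    · intro x u hu
      have hu' : 4 * ‖u‖ ≤ ‖x‖ := by exact_mod_cast hu
      refine (implication_bound x u hu').trans (le_of_eq ?_)
      congr 1
      push_cast
      ring
  · rintro ⟨-, ψ₁, ψ₂, α, σ, -, -, -, -, -, h⟩
    obtain ⟨u, hu⟩ := exists_const
    obtain ⟨k, hk⟩ := exists_nat_gt (4 * (σ ‖u‖₊ : ℝ))
    have h1 := (dini_large hu k).trans (h (pt k) u)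
    rw [EReal.coe_le_coe_iff] at h1
    have h2 : (0 : ℝ) ≤ (α ‖pt k‖₊ : ℝ) := NNReal.coe_nonneg _
    linarith

end

end Pool.Agent.Results.MP_cf29c0_an.ImplicationNotDissipative
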